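import Mathlib

set_option autoImplicit false

namespace Pool.Agent.H130R6

open Finset

section Core

variable {E : Type*} [NormedAddCommGroup E] [NormedSpace ℝ E]
variable {V : Type*} [AddCommGroup V] [Module ℝ V]

/-- One step: from `a` far from `x` get a new average. -/
lemma step (j : V →ₗ[ℝ] (E →L[ℝ] ℝ))
    (H : ∀ (v : V) (x : E), ‖x‖ = 1 → ∀ τ : ℝ, 0 < τ → ∀ ε : ℝ, 0 < ε →
      ∃ y : E, ‖y‖ ≤ 1 ∧ j v x - τ < j v y ∧ 2 - ε < ‖x - y‖)
    (m : ℕ) (g : Fin m → V) (x : E) (hx : ‖x‖ = 1) (C : ℝ)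
    (hC : 4 * ∑ i, ‖j (g i)‖ ^ 2 + 1 ≤ C) (n : ℕ) :
    ∀ κ : ℝ, 0 < κ → ∃ a : E, ‖a‖ ≤ 1 ∧ 2 - κ < ‖x - a‖ ∧
      ∑ i, (j (g i) ((n : ℝ) • (a - x))) ^ 2 ≤ n * C := by
  induction n with
  | zero =>
    intro κ hκ
    obtain ⟨y, hy1, -, hy2⟩ := H 0 x hx 1 one_pos κ hκ
    refine ⟨y, hy1, hy2, ?_⟩
    simp
  | succ n ih =>
    intro κ hκ
    set S : ℝ := ∑ i, ‖j (g i)‖ ^ 2 with hS
    have hS0 : 0 ≤ S := Finset.sum_nonneg fun i _ => by positivity
    set D : ℝ := 16 * ((n : ℝ) + 1) * (S + 1) with hD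
    have hn0 : (0 : ℝ) ≤ n := Nat.cast_nonneg n
    have hD1 : 16 ≤ D := by
      rw [hD]; nlinarith [mul_nonneg hn0 hS0]
    have hDpos : 0 < D := by linarith
    -- eta
    set η : ℝ := 1 / D with hη
    have hηpos : 0 < η := by positivity
    have hηle : η ≤ 1 / 16 := by
      rw [hη]; exact one_div_le_one_div_of_le (by norm_num) hD1
    have hηD : η * D = 1 := by rw [hη]; field_simp
    set κ' : ℝ := η * min κ 1 / 16 with hκ'
    have hmin : 0 < min κ 1 := lt_min hκ one_pos
    have hmin1 : min κ 1 ≤ 1 := min_le_right _ _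
    have hminκ : min κ 1 ≤ κ := min_le_left _ _
    have hκ'pos : 0 < κ' := by positivity
    have hκ'le : κ' ≤ η / 16 := by
      have h0 : κ' = η * (min κ 1) / 16 := by rw [hκ']
      have h1 : η * (min κ 1) ≤ η * 1 := mul_le_mul_of_nonneg_left hmin1 hηpos.le
      rw [h0]; linarith
    obtain ⟨a, ha1, ha2, ha3⟩ := ih κ' hκ'pos
    -- the perturbed point
    set u : E := (1 - η) • x - η • a with hu
    have hu1 : ‖u‖ ≤ 1 := by
      calc ‖u‖ ≤ ‖(1 - η) • x‖ + ‖η • a‖ := norm_sub_le _ _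
        _ = (1 - η) * ‖x‖ + η * ‖a‖ := by
            rw [norm_smul, norm_smul, Real.norm_of_nonneg (by linarith),
              Real.norm_of_nonneg hηpos.le]
        _ ≤ (1 - η) * 1 + η * 1 := by
            rw [hx]
            have := mul_le_mul_of_nonneg_left ha1 hηpos.le
            linarith
        _ = 1 := by ring
    have hu2 : 1 - κ' < ‖u‖ := by
      have h1 : x - a = u + (η • x - (1 - η) • a) := by
        rw [hu]; module
      have h2 : ‖η • x - (1 - η) • a‖ ≤ 1 := by
        calc ‖η • x - (1 - η) • a‖ ≤ ‖η • x‖ + ‖(1 - η) • a‖ := norm_sub_le _ _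
          _ = η * ‖x‖ + (1 - η) * ‖a‖ := by
              rw [norm_smul, norm_smul, Real.norm_of_nonneg hηpos.le,
                Real.norm_of_nonneg (by linarith)]
          _ ≤ η * 1 + (1 - η) * 1 := by
              rw [hx]
              have : (1 - η) * ‖a‖ ≤ (1 - η) * 1 := mul_le_mul_of_nonneg_left ha1 (by linarith)
              linarith
          _ = 1 := by ring
      have h3 : ‖x - a‖ ≤ ‖u‖ + ‖η • x - (1 - η) • a‖ := by
        rw [h1]; exact norm_add_le _ _
      linarith
    have hupos : 0 < ‖u‖ := by linarith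
    set f : E := (‖u‖)⁻¹ • u with hf
    have hf1 : ‖f‖ = 1 := by
      rw [hf, norm_smul, norm_inv, norm_norm, inv_mul_cancel₀ hupos.ne']
    have huf : u = ‖u‖ • f := by
      rw [hf, smul_smul, mul_inv_cancel₀ hupos.ne', one_smul]
    -- distance from x to f
    have hxf : ‖x - f‖ ≤ 2 * η + κ' := by
      have h1 : ‖x - u‖ ≤ 2 * η := by
        have : x - u = η • (x + a) := by rw [hu]; module
        rw [this, norm_smul, Real.norm_of_nonneg hηpos.le]
        have : ‖x + a‖ ≤ 2 := (norm_add_le _ _).trans (by rw [hx]; linarith)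
        have := mul_le_mul_of_nonneg_left this hηpos.le
        linarith
      have h2 : ‖u - f‖ ≤ κ' := by
        have : u - f = (‖u‖ - 1) • f := by
          rw [sub_smul, one_smul, ← huf]
        rw [this, norm_smul, hf1, mul_one, Real.norm_eq_abs, abs_le]
        constructor <;> linarith
      calc ‖x - f‖ = ‖(x - u) + (u - f)‖ := by congr 1; abel
        _ ≤ ‖x - u‖ + ‖u - f‖ := norm_add_le _ _
        _ ≤ _ := by linarith
    -- the functional
    set w : V := - ∑ i, (j (g i) (a - x)) • g i with hw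
    have hjw : ∀ z : E, j w z = - ∑ i, (j (g i) (a - x)) * j (g i) z := by
      intro z
      rw [hw, map_neg, map_sum]
      simp
    have hax : ‖a - x‖ ≤ 2 := (norm_sub_le _ _).trans (by rw [hx]; linarith)
    have hjwx : |j w (x - f)| ≤ 2 * S * ‖x - f‖ := by
      rw [hjw, abs_neg]
      calc |∑ i, (j (g i) (a - x)) * j (g i) (x - f)|
          ≤ ∑ i, |(j (g i) (a - x)) * j (g i) (x - f)| := Finset.abs_sum_le_sum_abs _ _
        _ ≤ ∑ i, 2 * ‖j (g i)‖ ^ 2 * ‖x - f‖ := by
            refine Finset.sum_le_sum fun i _ => ?_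
            rw [abs_mul]
            have h1 : |j (g i) (a - x)| ≤ ‖j (g i)‖ * 2 := by
              have := (j (g i)).le_opNorm (a - x)
              rw [Real.norm_eq_abs] at this
              exact this.trans (mul_le_mul_of_nonneg_left hax (norm_nonneg _))
            have h2 : |j (g i) (x - f)| ≤ ‖j (g i)‖ * ‖x - f‖ := by
              have := (j (g i)).le_opNorm (x - f)
              rwa [Real.norm_eq_abs] at this
            calc |j (g i) (a - x)| * |j (g i) (x - f)|
                ≤ (‖j (g i)‖ * 2) * (‖j (g i)‖ * ‖x - f‖) :=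
                  mul_le_mul h1 h2 (abs_nonneg _) (by positivity)
              _ = _ := by ring
        _ = 2 * S * ‖x - f‖ := by
            rw [hS, Finset.mul_sum, Finset.sum_mul]
    obtain ⟨z, hz1, hz2, hz3⟩ := H w f hf1 η hηpos κ' hκ'pos
    refine ⟨((n : ℝ) + 1)⁻¹ • ((n : ℝ) • a + z), ?_, ?_, ?_⟩
    · rw [norm_smul, norm_inv, Real.norm_of_nonneg (by positivity : (0 : ℝ) ≤ (n : ℝ) + 1)]
      rw [inv_mul_le_iff₀ (by positivity), mul_one]
      calc ‖(n : ℝ) • a + z‖ ≤ ‖(n : ℝ) • a‖ + ‖z‖ := norm_add_le _ _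
        _ ≤ n + 1 := by
            rw [norm_smul, Real.norm_of_nonneg hn0]
            have := mul_le_mul_of_nonneg_left ha1 hn0
            linarith
    · -- distance
      obtain ⟨ψ, hψ1, hψ2⟩ := exists_dual_vector'' ℝ (f - z)
      have hψle : ∀ v : E, ψ v ≤ ‖v‖ := by
        intro v
        have h1 := ψ.le_opNorm v
        rw [Real.norm_eq_abs] at h1
        have h2 : ‖ψ‖ * ‖v‖ ≤ 1 * ‖v‖ := mul_le_mul_of_nonneg_right hψ1 (norm_nonneg _)
        linarith [le_abs_self (ψ v)]
      have hψge : ∀ v : E, -‖v‖ ≤ ψ v := by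
        intro v
        have := hψle (-v)
        rw [map_neg, norm_neg] at this
        linarith
      have e1 : ψ f - ψ z = ‖f - z‖ := by
        rw [← map_sub, hψ2]; simp
      have e2 : ψ f ≤ 1 := (hψle f).trans hf1.le
      have e3 : -1 ≤ ψ z := by linarith [hψge z]
      have e4 : 1 - κ' < ψ f := by linarith
      have e5 : ψ z < -1 + κ' := by linarith
      have e6 : ψ u = ‖u‖ * ψ f := by
        conv_lhs => rw [huf]
        rw [map_smul, smul_eq_mul]
      have e7 : ψ u = (1 - η) * ψ x - η * ψ a := by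
        rw [hu, map_sub, map_smul, map_smul, smul_eq_mul, smul_eq_mul]
      have e8 : 1 - 2 * κ' ≤ ψ u := by
        rw [e6]
        have hk1 : κ' ≤ 1 := by linarith
        have hmm : (1 - κ') * (1 - κ') ≤ ‖u‖ * ψ f :=
          mul_le_mul hu2.le e4.le (by linarith) (norm_nonneg _)
        have : 1 - 2 * κ' ≤ (1 - κ') * (1 - κ') := by
          have := sq_nonneg κ'
          linarith
        linarith
      have e9 : ψ x ≤ 1 := (hψle x).trans hx.le
      have e10 : -1 ≤ ψ a := by linarith [hψge a]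
      have e9' : (1 - η) * ψ x ≤ (1 - η) * 1 := mul_le_mul_of_nonneg_left e9 (by linarith)
      have e10' : η * (-1) ≤ η * ψ a := mul_le_mul_of_nonneg_left e10 hηpos.le
      have e11 : η - 2 * κ' ≤ - (η * ψ a) := by
        linarith
      have e12 : (1 - η) - 2 * κ' ≤ (1 - η) * ψ x := by
        linarith
      have hηκ : η * κ' ≤ 1 / 16 * κ' := mul_le_mul_of_nonneg_right hηle hκ'pos.le
      have e13 : 1 - 4 * κ' ≤ ψ x := by
        have : (1 - η) * (1 - 4 * κ') ≤ (1 - η) * ψ x := by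
          have h0 : (1 - η) * (1 - 4 * κ') = 1 - η - 4 * κ' + 4 * (η * κ') := by ring
          rw [h0]; linarith
        exact le_of_mul_le_mul_left this (by linarith)
      have e14 : ψ a ≤ -1 + min κ 1 / 8 := by
        have hk2 : 2 * κ' = η * (min κ 1 / 8) := by rw [hκ']; ring
        have : η * ψ a ≤ η * (-1 + min κ 1 / 8) := by
          have h0 : η * (-1 + min κ 1 / 8) = - η + η * (min κ 1 / 8) := by ring
          rw [h0, ← hk2]; linarith
        exact le_of_mul_le_mul_left this hηpos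
      have e15 : κ' ≤ min κ 1 / 256 := by
        have h0 : κ' = η * (min κ 1 / 16) := by rw [hκ']; ring
        have h1 : η * (min κ 1 / 16) ≤ 1 / 16 * (min κ 1 / 16) :=
          mul_le_mul_of_nonneg_right hηle (by positivity)
        rw [h0]; linarith
      have hav : ψ (((n : ℝ) + 1)⁻¹ • ((n : ℝ) • a + z)) ≤ -1 + min κ 1 / 8 := by
        rw [map_smul, map_add, map_smul, smul_eq_mul, smul_eq_mul,
          inv_mul_le_iff₀ (by positivity)]
        have h0 : (n : ℝ) * ψ a ≤ n * (-1 + min κ 1 / 8) := mul_le_mul_of_nonneg_left e14 hn0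
        have h1 : ψ z ≤ -1 + min κ 1 / 8 := by linarith
        have h2 : ((n : ℝ) + 1) * (-1 + min κ 1 / 8) = n * (-1 + min κ 1 / 8) + (-1 + min κ 1 / 8) := by
          ring
        rw [h2]; linarith
      calc 2 - κ ≤ 2 - min κ 1 := by linarith
        _ < (1 - 4 * κ') - (-1 + min κ 1 / 8) := by linarith
        _ ≤ ψ x - ψ (((n : ℝ) + 1)⁻¹ • ((n : ℝ) • a + z)) := by linarith
        _ = ψ (x - ((n : ℝ) + 1)⁻¹ • ((n : ℝ) • a + z)) := by rw [map_sub]
        _ ≤ _ := hψle _
    · -- sum of squares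
      have hn1 : ((n : ℝ) + 1) ≠ 0 := by positivity
      have key : (((n + 1 : ℕ) : ℝ)) • (((n : ℝ) + 1)⁻¹ • ((n : ℝ) • a + z) - x)
          = (n : ℝ) • (a - x) + (z - x) := by
        push_cast
        rw [smul_sub, smul_smul, mul_inv_cancel₀ hn1, one_smul]
        module
      rw [key]
      have hexp : ∑ i, (j (g i) ((n : ℝ) • (a - x) + (z - x))) ^ 2
          = ∑ i, (j (g i) ((n : ℝ) • (a - x))) ^ 2
            + 2 * n * (∑ i, (j (g i) (a - x)) * j (g i) (z - x))
            + ∑ i, (j (g i) (z - x)) ^ 2 := by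
        rw [Finset.mul_sum, ← Finset.sum_add_distrib, ← Finset.sum_add_distrib]
        refine Finset.sum_congr rfl fun i _ => ?_
        rw [map_add, map_smul, smul_eq_mul]
        ring
      rw [hexp]
      have hB : (∑ i, (j (g i) (a - x)) * j (g i) (z - x)) = j w x - j w z := by
        have := hjw (z - x)
        rw [map_sub] at this
        linarith
      have hB2 : (∑ i, (j (g i) (a - x)) * j (g i) (z - x)) ≤ 2 * S * (2 * η + κ') + η := by
        rw [hB]
        have h1 : j w x - j w f ≤ 2 * S * ‖x - f‖ := by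
          rw [← map_sub]; exact (le_abs_self _).trans hjwx
        have h2 : 2 * S * ‖x - f‖ ≤ 2 * S * (2 * η + κ') :=
          mul_le_mul_of_nonneg_left hxf (by linarith)
        linarith
      have hB3 : 2 * n * (2 * S * (2 * η + κ') + η) ≤ 1 := by
        have h1 : 2 * S * (2 * η + κ') + η ≤ η * (5 * (S + 1)) := by
          have h5 : 2 * S * (2 * η + κ') ≤ 2 * S * (2 * η + η / 16) :=
            mul_le_mul_of_nonneg_left (by linarith) (by linarith)
          have h6 : 0 ≤ η * S := mul_nonneg hηpos.le hS0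
          have h7 : 2 * S * (2 * η + η / 16) = (4 + 1 / 8) * (η * S) := by ring
          have h8 : η * (5 * (S + 1)) = 5 * (η * S) + 5 * η := by ring
          rw [h8]
          rw [h7] at h5
          linarith
        have h2 : 2 * n * (η * (5 * (S + 1))) ≤ η * D := by
          have h5 : 0 ≤ η * (S + 1) := by positivity
          have h6 := mul_nonneg hn0 h5
          have h7 : η * D = 16 * (n * (η * (S + 1))) + 16 * (η * (S + 1)) := by
            rw [hD]; ring
          have h8 : 2 * (n : ℝ) * (η * (5 * (S + 1))) = 10 * (n * (η * (S + 1))) := by ring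
          rw [h7, h8]
          linarith
        have h3 : 2 * (n : ℝ) * (2 * S * (2 * η + κ') + η) ≤ 2 * n * (η * (5 * (S + 1))) :=
          mul_le_mul_of_nonneg_left h1 (by positivity)
        linarith
      have hB4 : 2 * n * (∑ i, (j (g i) (a - x)) * j (g i) (z - x)) ≤ 1 :=
        (mul_le_mul_of_nonneg_left hB2 (by positivity)).trans hB3
      have hzx : ‖z - x‖ ≤ 2 := (norm_sub_le _ _).trans (by rw [hx]; linarith)
      have hlast : ∑ i, (j (g i) (z - x)) ^ 2 ≤ 4 * S := by
        rw [hS, Finset.mul_sum]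
        refine Finset.sum_le_sum fun i _ => ?_
        have h1 : |j (g i) (z - x)| ≤ ‖j (g i)‖ * 2 := by
          have := (j (g i)).le_opNorm (z - x)
          rw [Real.norm_eq_abs] at this
          exact this.trans (mul_le_mul_of_nonneg_left hzx (norm_nonneg _))
        have h2 : (j (g i) (z - x)) ^ 2 = |j (g i) (z - x)| ^ 2 := (sq_abs _).symm
        rw [h2]
        calc |j (g i) (z - x)| ^ 2 ≤ (‖j (g i)‖ * 2) ^ 2 :=
              pow_le_pow_left₀ (abs_nonneg _) h1 2
          _ = 4 * ‖j (g i)‖ ^ 2 := by ring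
      push_cast
      linarith

/-- The slice property for a point class implies the property for finite intersections of slabs. -/
theorem slices_to_weak (j : V →ₗ[ℝ] (E →L[ℝ] ℝ))
    (H : ∀ (v : V) (x : E), ‖x‖ = 1 → ∀ τ : ℝ, 0 < τ → ∀ ε : ℝ, 0 < ε →
      ∃ y : E, ‖y‖ ≤ 1 ∧ j v x - τ < j v y ∧ 2 - ε < ‖x - y‖)
    (m : ℕ) (g : Fin m → V) (δ : ℝ) (hδ : 0 < δ) (x : E) (hx : ‖x‖ = 1)
    (ε : ℝ) (hε : 0 < ε) :
    ∃ y : E, ‖y‖ ≤ 1 ∧ (∀ i, |j (g i) (y - x)| < δ) ∧ 2 - ε < ‖x - y‖ := by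
  set C : ℝ := 4 * ∑ i, ‖j (g i)‖ ^ 2 + 1 with hC
  have hC1 : 1 ≤ C := by
    have : 0 ≤ ∑ i, ‖j (g i)‖ ^ 2 := Finset.sum_nonneg fun i _ => by positivity
    linarith
  obtain ⟨n, hn⟩ := exists_nat_gt (C / δ ^ 2)
  have hnpos : (0 : ℝ) < n := lt_of_le_of_lt (by positivity) hn
  obtain ⟨a, ha1, ha2, ha3⟩ := step j H m g x hx C le_rfl n ε hε
  refine ⟨a, ha1, fun i => ?_, ha2⟩
  have h1 : (j (g i) ((n : ℝ) • (a - x))) ^ 2 ≤ n * C :=
    (Finset.single_le_sum (f := fun i => (j (g i) ((n : ℝ) • (a - x))) ^ 2)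
      (fun i _ => sq_nonneg _) (Finset.mem_univ i)).trans ha3
  rw [map_smul, smul_eq_mul, mul_pow] at h1
  have h2 : C < n * δ ^ 2 := by
    rwa [div_lt_iff₀ (by positivity)] at hn
  have h3 : (j (g i) (a - x)) ^ 2 < δ ^ 2 := by
    have h4 : (n : ℝ) ^ 2 * (j (g i) (a - x)) ^ 2 < (n : ℝ) ^ 2 * δ ^ 2 := by
      calc (n : ℝ) ^ 2 * (j (g i) (a - x)) ^ 2 ≤ n * C := h1
        _ < n * (n * δ ^ 2) := mul_lt_mul_of_pos_left h2 hnpos
        _ = _ := by ring
    exact lt_of_mul_lt_mul_left h4 (by positivity)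
  exact abs_lt_of_sq_lt_sq h3 hδ.le

end Core

end Pool.Agent.H130R6
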