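import Mathlib
import Pool.Agent.H130R6.DL

set_option autoImplicit false

namespace Pool.Agent.H130R6

section Dual

variable {X : Type*} [NormedAddCommGroup X] [NormedSpace ℝ X]

lemma exists_norming {f : X →L[ℝ] ℝ} {r : ℝ} (hr : r < ‖f‖) :
    ∃ y : X, ‖y‖ ≤ 1 ∧ r < f y := by
  obtain ⟨y, hy1, hy2⟩ := f.exists_lt_apply_of_lt_opNorm hr
  rcases le_total 0 (f y) with h | h
  · refine ⟨y, hy1.le, ?_⟩
    rwa [Real.norm_of_nonneg h] at hy2
  · refine ⟨-y, by rw [norm_neg]; exact hy1.le, ?_⟩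
    rw [Real.norm_of_nonpos h] at hy2
    rwa [map_neg]

lemma apply_le_one {f : X →L[ℝ] ℝ} (hf : ‖f‖ ≤ 1) {y : X} (hy : ‖y‖ ≤ 1) : f y ≤ 1 := by
  have h1 := f.le_opNorm y
  rw [Real.norm_eq_abs] at h1
  have h2 : ‖f‖ * ‖y‖ ≤ 1 := mul_le_one₀ hf (norm_nonneg _) hy
  exact (le_abs_self _).trans (h1.trans h2)

lemma neg_one_le_apply {f : X →L[ℝ] ℝ} (hf : ‖f‖ ≤ 1) {y : X} (hy : ‖y‖ ≤ 1) : -1 ≤ f y := by
  have := apply_le_one hf (y := -y) (by rwa [norm_neg])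
  rw [map_neg] at this
  linarith

/-- local property for `X` implies the weak star local property, case `‖v‖ ≤ 1` -/
lemma local_to_dual_aux
    (H : ∀ (h : X →L[ℝ] ℝ) (x : X), ‖x‖ = 1 → ∀ τ : ℝ, 0 < τ → ∀ ε : ℝ, 0 < ε →
      ∃ y : X, ‖y‖ ≤ 1 ∧ h x - τ < h y ∧ 2 - ε < ‖x - y‖)
    (v : X) (hv : ‖v‖ ≤ 1) (f : X →L[ℝ] ℝ) (hf : ‖f‖ = 1) (τ : ℝ) (hτ : 0 < τ)
    (ε : ℝ) (hε : 0 < ε) :
    ∃ g : X →L[ℝ] ℝ, ‖g‖ ≤ 1 ∧ f v - τ < g v ∧ 2 - ε < ‖f - g‖ := by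
  set l : ℝ := min ε 1 / 16 with hl
  have hl0 : 0 < l := by positivity
  have hlε : 16 * l ≤ ε := by rw [hl]; linarith [min_le_left ε 1]
  have hl1 : 16 * l ≤ 1 := by rw [hl]; linarith [min_le_right ε 1]
  set t : ℝ := l * min τ 1 / 4 with ht
  have ht0 : 0 < t := by positivity
  have htl : t ≤ l / 4 := by
    have : l * min τ 1 ≤ l * 1 := mul_le_mul_of_nonneg_left (min_le_right _ _) hl0.le
    rw [ht]; linarith
  have htτ : 4 * t ≤ l * τ := by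
    have : l * min τ 1 ≤ l * τ := mul_le_mul_of_nonneg_left (min_le_left _ _) hl0.le
    rw [ht]; linarith
  obtain ⟨x₁, hx₁, hfx₁⟩ := exists_norming (f := f) (r := 1 - t) (by rw [hf]; linarith)
  set u : X := (1 - l) • x₁ + l • v with hu
  have hu1 : ‖u‖ ≤ 1 := by
    calc ‖u‖ ≤ ‖(1 - l) • x₁‖ + ‖l • v‖ := norm_add_le _ _
      _ = (1 - l) * ‖x₁‖ + l * ‖v‖ := by
          rw [norm_smul, norm_smul, Real.norm_of_nonneg (by linarith),
            Real.norm_of_nonneg hl0.le]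
      _ ≤ (1 - l) * 1 + l * 1 := by
          have h1 := mul_le_mul_of_nonneg_left hx₁ (by linarith : (0 : ℝ) ≤ 1 - l)
          have h2 := mul_le_mul_of_nonneg_left hv hl0.le
          linarith
      _ = 1 := by ring
  have hfu : f u = (1 - l) * f x₁ + l * f v := by
    rw [hu, map_add, map_smul, map_smul, smul_eq_mul, smul_eq_mul]
  have hfv : -1 ≤ f v := neg_one_le_apply hf.le hv
  have hfv' : l * (-1) ≤ l * f v := mul_le_mul_of_nonneg_left hfv hl0.le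
  have h1l : (1 - l) * (1 - t) ≤ (1 - l) * f x₁ :=
    mul_le_mul_of_nonneg_left hfx₁.le (by linarith)
  have hlt : l * t ≥ 0 := by positivity
  have h1l' : (1 - l) * (1 - t) = 1 - l - t + l * t := by ring
  have hfu2 : 1 - 2 * l - t ≤ f u := by rw [hfu]; linarith
  have hfule : f u ≤ ‖u‖ := by
    have h1 := f.le_opNorm u
    rw [Real.norm_eq_abs, hf, one_mul] at h1
    exact (le_abs_self _).trans h1
  have hupos : 0 < ‖u‖ := by linarith
  set w : X := (‖u‖)⁻¹ • u with hw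
  have hw1 : ‖w‖ = 1 := by
    rw [hw, norm_smul, norm_inv, norm_norm, inv_mul_cancel₀ hupos.ne']
  have huw : u = ‖u‖ • w := by
    rw [hw, smul_smul, mul_inv_cancel₀ hupos.ne', one_smul]
  obtain ⟨y, hy1, hy2, hy3⟩ := H f w hw1 t ht0 t ht0
  obtain ⟨g, hg1, hg2⟩ := exists_dual_vector'' ℝ (w - y)
  have e1 : g w - g y = ‖w - y‖ := by
    rw [← map_sub, hg2]; simp
  have e2 : g w ≤ 1 := apply_le_one hg1 hw1.le
  have e3 : -1 ≤ g y := neg_one_le_apply hg1 hy1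
  have e4 : 1 - t < g w := by linarith
  have e5 : g y < -1 + t := by linarith
  have hfw : f u ≤ f w := by
    have h1 : f u = ‖u‖ * f w := by
      conv_lhs => rw [huw]
      rw [map_smul, smul_eq_mul]
    have h2 : 0 ≤ f w := by
      have : 0 < ‖u‖ * f w := by rw [← h1]; linarith
      exact ((pos_iff_pos_of_mul_pos this).1 hupos).le
    rw [h1]
    have := mul_le_mul_of_nonneg_right hu1 h2
    linarith
  refine ⟨g, hg1, ?_, ?_⟩
  · have h1 : g u = ‖u‖ * g w := by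
      conv_lhs => rw [huw]
      rw [map_smul, smul_eq_mul]
    have h2 : ‖u‖ * (1 - t) ≤ ‖u‖ * g w := mul_le_mul_of_nonneg_left e4.le hupos.le
    have h3 : ‖u‖ * t ≤ 1 * t := mul_le_mul_of_nonneg_right hu1 ht0.le
    have h4 : ‖u‖ * (1 - t) = ‖u‖ - ‖u‖ * t := by ring
    have h5 : f u - t ≤ g u := by linarith
    have h6 : g u = (1 - l) * g x₁ + l * g v := by
      rw [hu, map_add, map_smul, map_smul, smul_eq_mul, smul_eq_mul]
    have h7 : (1 - l) * g x₁ ≤ (1 - l) * 1 :=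
      mul_le_mul_of_nonneg_left (apply_le_one hg1 hx₁) (by linarith)
    have h8 : l * (f v - τ) < l * g v := by
      have : l * (f v - τ) = l * f v - l * τ := by ring
      rw [this]
      linarith
    exact lt_of_mul_lt_mul_left h8 hl0.le
  · have h1 : (f - g) y ≤ ‖f - g‖ := by
      have h1 := (f - g).le_opNorm y
      rw [Real.norm_eq_abs] at h1
      have h2 : ‖f - g‖ * ‖y‖ ≤ ‖f - g‖ * 1 :=
        mul_le_mul_of_nonneg_left hy1 (norm_nonneg _)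
      linarith [le_abs_self ((f - g) y)]
    have h2 : (f - g) y = f y - g y := rfl
    rw [h2] at h1
    linarith

theorem local_to_dual
    (H : ∀ (h : X →L[ℝ] ℝ) (x : X), ‖x‖ = 1 → ∀ τ : ℝ, 0 < τ → ∀ ε : ℝ, 0 < ε →
      ∃ y : X, ‖y‖ ≤ 1 ∧ h x - τ < h y ∧ 2 - ε < ‖x - y‖)
    (v : X) (f : X →L[ℝ] ℝ) (hf : ‖f‖ = 1) (τ : ℝ) (hτ : 0 < τ)
    (ε : ℝ) (hε : 0 < ε) :
    ∃ g : X →L[ℝ] ℝ, ‖g‖ ≤ 1 ∧ f v - τ < g v ∧ 2 - ε < ‖f - g‖ := by
  have hR : 0 < ‖v‖ + 1 := by positivity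
  have hv' : ‖(‖v‖ + 1)⁻¹ • v‖ ≤ 1 := by
    rw [norm_smul, norm_inv, Real.norm_of_nonneg hR.le, inv_mul_le_iff₀ hR]
    linarith
  obtain ⟨g, hg1, hg2, hg3⟩ := local_to_dual_aux H ((‖v‖ + 1)⁻¹ • v) hv' f hf
    ((‖v‖ + 1)⁻¹ * τ) (by positivity) ε hε
  refine ⟨g, hg1, ?_, hg3⟩
  rw [map_smul, map_smul, smul_eq_mul, smul_eq_mul, ← mul_sub] at hg2
  exact lt_of_mul_lt_mul_left hg2 (by positivity)

/-- the weak star local property implies the local property, case `‖h‖ ≤ 1` -/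
lemma dual_to_local_aux
    (H : ∀ (v : X) (f : X →L[ℝ] ℝ), ‖f‖ = 1 → ∀ τ : ℝ, 0 < τ → ∀ ε : ℝ, 0 < ε →
      ∃ g : X →L[ℝ] ℝ, ‖g‖ ≤ 1 ∧ f v - τ < g v ∧ 2 - ε < ‖f - g‖)
    (h : X →L[ℝ] ℝ) (hh : ‖h‖ ≤ 1) (x : X) (hx : ‖x‖ = 1) (τ : ℝ) (hτ : 0 < τ)
    (ε : ℝ) (hε : 0 < ε) :
    ∃ y : X, ‖y‖ ≤ 1 ∧ h x - τ < h y ∧ 2 - ε < ‖x - y‖ := by
  set l : ℝ := min ε 1 / 16 with hl
  have hl0 : 0 < l := by positivity
  have hlε : 16 * l ≤ ε := by rw [hl]; linarith [min_le_left ε 1]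
  have hl1 : 16 * l ≤ 1 := by rw [hl]; linarith [min_le_right ε 1]
  set t : ℝ := l * min τ 1 / 4 with ht
  have ht0 : 0 < t := by positivity
  have htl : t ≤ l / 4 := by
    have : l * min τ 1 ≤ l * 1 := mul_le_mul_of_nonneg_left (min_le_right _ _) hl0.le
    rw [ht]; linarith
  have htτ : 4 * t ≤ l * τ := by
    have : l * min τ 1 ≤ l * τ := mul_le_mul_of_nonneg_left (min_le_left _ _) hl0.le
    rw [ht]; linarith
  obtain ⟨p, hp1, hp2⟩ := exists_dual_vector'' ℝ x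
  have hp2' : p x = 1 := by rw [hp2, hx]; simp
  set F : X →L[ℝ] ℝ := (1 - l) • p + l • h with hF
  have hF1 : ‖F‖ ≤ 1 := by
    calc ‖F‖ ≤ ‖(1 - l) • p‖ + ‖l • h‖ := norm_add_le _ _
      _ = (1 - l) * ‖p‖ + l * ‖h‖ := by
          rw [norm_smul, norm_smul, Real.norm_of_nonneg (by linarith),
            Real.norm_of_nonneg hl0.le]
      _ ≤ (1 - l) * 1 + l * 1 := by
          have h1 := mul_le_mul_of_nonneg_left hp1 (by linarith : (0 : ℝ) ≤ 1 - l)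
          have h2 := mul_le_mul_of_nonneg_left hh hl0.le
          linarith
      _ = 1 := by ring
  have hFv : ∀ z : X, F z = (1 - l) * p z + l * h z := fun z => rfl
  have hhx : -1 ≤ h x := neg_one_le_apply hh hx.le
  have hhx' : l * (-1) ≤ l * h x := mul_le_mul_of_nonneg_left hhx hl0.le
  have hFx : 1 - 2 * l ≤ F x := by
    rw [hFv, hp2']; linarith
  have hFxle : F x ≤ ‖F‖ := by
    have h1 := F.le_opNorm x
    rw [Real.norm_eq_abs, hx, mul_one] at h1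
    exact (le_abs_self _).trans h1
  have hFpos : 0 < ‖F‖ := by linarith
  set f : X →L[ℝ] ℝ := (‖F‖)⁻¹ • F with hf
  have hf1 : ‖f‖ = 1 := by
    rw [hf, norm_smul, norm_inv, norm_norm, inv_mul_cancel₀ hFpos.ne']
  have hFf : ∀ z : X, F z = ‖F‖ * f z := by
    intro z
    have : f z = (‖F‖)⁻¹ * F z := rfl
    rw [this, ← mul_assoc, mul_inv_cancel₀ hFpos.ne', one_mul]
  obtain ⟨g, hg1, hg2, hg3⟩ := H x f hf1 t ht0 t ht0
  obtain ⟨y, hy1, hy2⟩ := exists_norming hg3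
  have hy2' : 2 - t < f y - g y := hy2
  have e2 : f y ≤ 1 := apply_le_one hf1.le hy1
  have e3 : -1 ≤ g y := neg_one_le_apply hg1 hy1
  have e4 : 1 - t < f y := by linarith
  have e5 : g y < -1 + t := by linarith
  have hfx : F x ≤ f x := by
    have h1 := hFf x
    have h2 : 0 ≤ f x := by
      have : 0 < ‖F‖ * f x := by rw [← h1]; linarith
      exact ((pos_iff_pos_of_mul_pos this).1 hFpos).le
    rw [h1]
    have := mul_le_mul_of_nonneg_right hF1 h2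
    linarith
  refine ⟨y, hy1, ?_, ?_⟩
  · have h1 := hFf y
    have h2 : ‖F‖ * (1 - t) ≤ ‖F‖ * f y := mul_le_mul_of_nonneg_left e4.le hFpos.le
    have h3 : ‖F‖ * t ≤ 1 * t := mul_le_mul_of_nonneg_right hF1 ht0.le
    have h4 : ‖F‖ * (1 - t) = ‖F‖ - ‖F‖ * t := by ring
    have h5 : F x - t ≤ F y := by linarith
    have h6 := hFv y
    have h6' := hFv x
    rw [hp2'] at h6'
    have h7 : (1 - l) * p y ≤ (1 - l) * 1 :=
      mul_le_mul_of_nonneg_left (apply_le_one hp1 hy1) (by linarith)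
    have h8 : l * (h x - τ) < l * h y := by
      have : l * (h x - τ) = l * h x - l * τ := by ring
      rw [this]
      linarith
    exact lt_of_mul_lt_mul_left h8 hl0.le
  · have h1 : g (x - y) ≤ ‖x - y‖ := by
      have h1 := g.le_opNorm (x - y)
      rw [Real.norm_eq_abs] at h1
      have h2 : ‖g‖ * ‖x - y‖ ≤ 1 * ‖x - y‖ :=
        mul_le_mul_of_nonneg_right hg1 (norm_nonneg _)
      linarith [le_abs_self (g (x - y))]
    rw [map_sub] at h1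
    linarith

theorem dual_to_local
    (H : ∀ (v : X) (f : X →L[ℝ] ℝ), ‖f‖ = 1 → ∀ τ : ℝ, 0 < τ → ∀ ε : ℝ, 0 < ε →
      ∃ g : X →L[ℝ] ℝ, ‖g‖ ≤ 1 ∧ f v - τ < g v ∧ 2 - ε < ‖f - g‖)
    (h : X →L[ℝ] ℝ) (x : X) (hx : ‖x‖ = 1) (τ : ℝ) (hτ : 0 < τ)
    (ε : ℝ) (hε : 0 < ε) :
    ∃ y : X, ‖y‖ ≤ 1 ∧ h x - τ < h y ∧ 2 - ε < ‖x - y‖ := by
  have hR : 0 < ‖h‖ + 1 := by positivity
  have hh' : ‖(‖h‖ + 1)⁻¹ • h‖ ≤ 1 := by
    rw [norm_smul, norm_inv, Real.norm_of_nonneg hR.le, inv_mul_le_iff₀ hR]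
    linarith
  obtain ⟨y, hy1, hy2, hy3⟩ := dual_to_local_aux H ((‖h‖ + 1)⁻¹ • h) hh' x hx
    ((‖h‖ + 1)⁻¹ * τ) (by positivity) ε hε
  refine ⟨y, hy1, ?_, hy3⟩
  have e : ∀ z : X, ((‖h‖ + 1)⁻¹ • h) z = (‖h‖ + 1)⁻¹ * h z := fun z => rfl
  rw [e, e, ← mul_sub] at hy2
  exact lt_of_mul_lt_mul_left hy2 (by positivity)

end Dual

end Pool.Agent.H130R6
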