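import Mathlib

set_option autoImplicit false

namespace Pool.Agent.H130R6

/-- Basic neighbourhoods of the topology induced by a pairing. -/
theorem weakBilin_nbhd {E F : Type*} [AddCommGroup E] [Module ℝ E] [AddCommGroup F] [Module ℝ F]
    (B : E →ₗ[ℝ] F →ₗ[ℝ] ℝ) (U : Set (WeakBilin B)) (hU : IsOpen U) (x : E)
    (hx : (x : WeakBilin B) ∈ U) :
    ∃ (m : ℕ) (g : Fin m → F) (δ : ℝ), 0 < δ ∧
      ∀ y : E, (∀ i, |B y (g i) - B x (g i)| < δ) → (y : WeakBilin B) ∈ U := by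
  obtain ⟨V, hV, hVU⟩ := isOpen_induced_iff.1 hU
  have hxV : (fun f : F => B x f) ∈ V := by
    have : (x : WeakBilin B) ∈ (fun (x : WeakBilin B) y => B x y) ⁻¹' V := by
      rw [hVU]; exact hx
    exact this
  obtain ⟨I, u, hu1, hu2⟩ := isOpen_pi_iff.1 hV _ hxV
  have hδ : ∀ a ∈ I, ∃ δ : ℝ, 0 < δ ∧ Metric.ball (B x a) δ ⊆ u a := fun a ha =>
    Metric.isOpen_iff.1 (hu1 a ha).1 _ (hu1 a ha).2
  choose! d hd1 hd2 using hδ
  obtain ⟨δ, hδ1, hδ2⟩ : ∃ δ : ℝ, 0 < δ ∧ ∀ a ∈ I, δ ≤ d a := by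
    rcases I.eq_empty_or_nonempty with h | h
    · refine ⟨1, one_pos, ?_⟩
      intro a ha
      rw [h] at ha
      exact absurd ha (Finset.notMem_empty _)
    · refine ⟨I.inf' h d, ?_, fun a ha => Finset.inf'_le _ ha⟩
      rw [Finset.lt_inf'_iff]
      exact hd1
  refine ⟨I.card, fun i => (I.equivFin.symm i : F), δ, hδ1, ?_⟩
  intro y hy
  have : (fun f : F => B y f) ∈ V := by
    apply hu2
    intro a ha
    apply hd2 a ha
    rw [Metric.mem_ball, Real.dist_eq]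
    have h1 := hy (I.equivFin ⟨a, ha⟩)
    simp only [Equiv.symm_apply_apply] at h1
    exact h1.trans_le (hδ2 a ha)
  have h2 : (y : WeakBilin B) ∈ (fun (x : WeakBilin B) y => B x y) ⁻¹' V := this
  rw [hVU] at h2
  exact h2

end Pool.Agent.H130R6
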